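import Pool.Agent.W973.EGSR4
import Pool.Agent.Y896.HS.SR3
import Pool.Agent.W544.EG.Gen

set_option autoImplicit false
set_option linter.unusedSectionVars false

/-! # Smooth functions on a compact group: integration by parts and a local estimate -/

namespace Pool.Agent.R738.HSp

open Matrix MeasureTheory Filter Topology
open scoped Matrix.Norms.Frobenius ContDiff
open Pool.Agent.W544.EG Pool.Agent.W973.EGSR

variable {N : ℕ} {G : Subgroup (unitaryGroup (Fin N) ℂ)}

/-- restrictions of smooth functions of the matrix -/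
def Sm (u : G → ℝ) : Prop := ∃ F : Mat N → ℝ, ContDiff ℝ ∞ F ∧ ∀ x : G, u x = F (mt x)

/-- the algebra of smooth functions -/
def SmA (G : Subgroup (unitaryGroup (Fin N) ℂ)) : Subalgebra ℝ (G → ℝ) where
  carrier := {u | Sm u}
  add_mem' := by
    rintro u v ⟨F, hF, hF'⟩ ⟨F₁, hF₁, hF₁'⟩
    exact ⟨fun A => F A + F₁ A, hF.add hF₁, fun x => by rw [Pi.add_apply, hF', hF₁']⟩
  mul_mem' := by
    rintro u v ⟨F, hF, hF'⟩ ⟨F₁, hF₁, hF₁'⟩
    exact ⟨fun A => F A * F₁ A, hF.mul hF₁, fun x => by rw [Pi.mul_apply, hF', hF₁']⟩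
  algebraMap_mem' r := ⟨fun _ => r, contDiff_const, fun x => rfl⟩

theorem Sm.continuous {u : G → ℝ} (hu : Sm u) : Continuous u := by
  obtain ⟨F, hF, hF'⟩ := hu
  have : u = fun x => F (mt x) := funext hF'
  rw [this]
  exact hF.continuous.comp continuous_mt

theorem Sm.trans_right {u : G → ℝ} (hu : Sm u) (y : G) : Sm (fun x => u (x * y)) := by
  obtain ⟨F, hF, hF'⟩ := hu
  refine ⟨fun A => F (A * mt y), hF.comp (contDiff_id.mul contDiff_const), fun x => ?_⟩
  exact hF' (x * y)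

theorem Sm.trans_left {u : G → ℝ} (hu : Sm u) (y : G) : Sm (fun x => u (y * x)) := by
  obtain ⟨F, hF, hF'⟩ := hu
  refine ⟨fun A => F (mt y * A), hF.comp (contDiff_const.mul contDiff_id), fun x => ?_⟩
  exact hF' (y * x)

section Deriv

variable {X : Mat N} {γ : ℝ → G} (h : OPG X γ)
include h

theorem Sm.dX {u : G → ℝ} (hu : Sm u) : Sm (dX γ u) := by
  obtain ⟨F, hF, hF'⟩ := hu
  refine ⟨fun A => fderiv ℝ F A (A * X), ?_, fun x => dX_formula h hF hF' x⟩
  exact (hF.fderiv_right (m := ∞) (by simp)).clm_apply (contDiff_id.mul contDiff_const)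

theorem Sm.hasDerivAt {u : G → ℝ} (hu : Sm u) (x : G) (t : ℝ) :
    HasDerivAt (fun t => u (x * γ t)) (Pool.Agent.W973.EGSR.dX γ u (x * γ t)) t := by
  obtain ⟨F, hF, hF'⟩ := hu
  have h1 := h.hasDerivAt_comp hF x t
  rw [← dX_formula h hF hF'] at h1
  have h2 : (fun t => u (x * γ t)) = fun t => F (mt (x * γ t)) := funext fun t => hF' _
  rw [h2]
  exact h1

theorem dX_add {u v : G → ℝ} (hu : Sm u) (hv : Sm v) : dX γ (u + v) = dX γ u + dX γ v := by
  funext x
  have h1 := ((hu.hasDerivAt h x 0).add (hv.hasDerivAt h x 0)).deriv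
  rw [h.zero, mul_one] at h1
  exact h1

theorem dX_smul {u : G → ℝ} (hu : Sm u) (c : ℝ) : dX γ (c • u) = c • dX γ u := by
  funext x
  have h1 := ((hu.hasDerivAt h x 0).const_mul c).deriv
  rw [h.zero, mul_one] at h1
  exact h1

theorem dX_mul {u v : G → ℝ} (hu : Sm u) (hv : Sm v) (x : G) :
    dX γ (u * v) x = dX γ u x * v x + u x * dX γ v x := by
  have h1 := ((hu.hasDerivAt h x 0).mul (hv.hasDerivAt h x 0)).deriv
  rw [h.zero, mul_one] at h1
  exact h1

end Deriv

section Integral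

variable [MeasurableSpace G] [BorelSpace G] (μ : Measure G) [IsProbabilityMeasure μ]
  [CompactSpace G] [μ.IsMulRightInvariant]

theorem int_right {u : G → ℝ} (y : G) : ∫ x, u (x * y) ∂μ = ∫ x, u x ∂μ :=
  integral_mul_right_eq_self u y

theorem bdd_of_cont {u : G → ℝ} (hu : Continuous u) : ∃ C : ℝ, ∀ x, |u x| ≤ C := by
  obtain ⟨C, hC⟩ := isCompact_univ.exists_bound_of_continuousOn hu.continuousOn
  exact ⟨C, fun x => hC x (Set.mem_univ x)⟩

theorem int_dX {X : Mat N} {γ : ℝ → G} (h : OPG X γ) {w : G → ℝ} (hw : Sm w) :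
    ∫ x, dX γ w x ∂μ = 0 := by
  obtain ⟨C, hC⟩ := bdd_of_cont (hw.dX h).continuous
  have hlim : Tendsto (fun n : ℕ => ∫ x, ((n : ℝ) + 1) * (w (x * γ (((n : ℝ) + 1)⁻¹)) - w x) ∂μ)
      atTop (𝓝 (∫ x, dX γ w x ∂μ)) := by
    refine tendsto_integral_of_dominated_convergence (fun _ => C) ?_ (integrable_const C) ?_ ?_
    · intro n
      exact (Continuous.aestronglyMeasurable (continuous_const.mul
        (((hw.trans_right _).continuous).sub hw.continuous)))
    · intro n
      refine Eventually.of_forall fun x => ?_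
      have h1 : ∀ t ∈ Set.Icc (0 : ℝ) (((n : ℝ) + 1)⁻¹), HasDerivWithinAt (fun t => w (x * γ t))
          (dX γ w (x * γ t)) (Set.Icc (0 : ℝ) (((n : ℝ) + 1)⁻¹)) t := fun t _ =>
        (hw.hasDerivAt h x t).hasDerivWithinAt
      have h2 := norm_image_sub_le_of_norm_deriv_le_segment' h1 (C := C)
        (fun t _ => hC _) _ (Set.right_mem_Icc.mpr (by positivity))
      rw [h.zero, mul_one, sub_zero] at h2
      rw [norm_mul]
      have h3 : ‖(n : ℝ) + 1‖ = (n : ℝ) + 1 := by
        rw [Real.norm_eq_abs, abs_of_pos (by positivity)]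
      rw [h3]
      calc ((n : ℝ) + 1) * ‖w (x * γ ((n : ℝ) + 1)⁻¹) - w x‖ ≤ ((n : ℝ) + 1) *
            (C * ((n : ℝ) + 1)⁻¹) := by gcongr
        _ = C := by field_simp
    · refine Eventually.of_forall fun x => ?_
      have h1 := (hw.hasDerivAt h x 0)
      rw [hasDerivAt_iff_tendsto_slope_zero] at h1
      have h2 : Tendsto (fun n : ℕ => ((n : ℝ) + 1)⁻¹) atTop (𝓝[≠] 0) := by
        rw [tendsto_nhdsWithin_iff]
        refine ⟨?_, Eventually.of_forall fun n => ?_⟩
        · have := tendsto_one_div_add_atTop_nhds_zero_nat (𝕜 := ℝ)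
          simpa using this
        · have : (0 : ℝ) < ((n : ℝ) + 1)⁻¹ := by positivity
          exact this.ne'
      have h3 := h1.comp h2
      rw [h.zero, mul_one] at h3
      refine h3.congr fun n => ?_
      simp only [Function.comp_apply, zero_add, smul_eq_mul, inv_inv]
  have hz : ∀ n : ℕ, ∫ x, ((n : ℝ) + 1) * (w (x * γ (((n : ℝ) + 1)⁻¹)) - w x) ∂μ = 0 := by
    intro n
    rw [integral_const_mul, int_sub μ (hw.trans_right _).continuous hw.continuous,
      int_right μ (u := w), sub_self, mul_zero]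
  simp only [hz] at hlim
  exact tendsto_nhds_unique hlim tendsto_const_nhds

theorem skew {X : Mat N} {γ : ℝ → G} (h : OPG X γ) {u v : G → ℝ} (hu : Sm u) (hv : Sm v) :
    ∫ x, dX γ u x * v x ∂μ = -∫ x, u x * dX γ v x ∂μ := by
  have h1 := int_dX μ h ((SmA G).mul_mem hu hv)
  simp only [dX_mul h hu hv] at h1
  rw [int_add μ (cmul (hu.dX h).continuous hv.continuous)
    (cmul hu.continuous (hv.dX h).continuous)] at h1
  linarith

theorem sq_int_le {v : ℝ → ℝ} (hv : Continuous v) :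
    (∫ s in (0 : ℝ)..1, v s) ^ 2 ≤ ∫ s in (0 : ℝ)..1, v s ^ 2 := by
  set c := ∫ s in (0 : ℝ)..1, v s with hc
  have h3 : 0 ≤ ∫ s in (0 : ℝ)..1, (v s - c) ^ 2 :=
    intervalIntegral.integral_nonneg (by norm_num) fun s _ => sq_nonneg _
  have h4 : ∫ s in (0 : ℝ)..1, (v s - c) ^ 2 =
      (∫ s in (0 : ℝ)..1, v s ^ 2) - 2 * c * (∫ s in (0 : ℝ)..1, v s) + c ^ 2 := by
    have h5 : ∀ s, (v s - c) ^ 2 = v s ^ 2 - 2 * c * v s + c ^ 2 := fun s => by ring
    simp only [h5]
    have c1 : Continuous fun s => v s ^ 2 := by fun_prop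
    have c2 : Continuous fun s => 2 * c * v s := by fun_prop
    have c3 : Continuous fun s => v s ^ 2 - 2 * c * v s := by fun_prop
    rw [intervalIntegral.integral_add (c3.intervalIntegrable _ _)
      (continuous_const.intervalIntegrable _ _),
      intervalIntegral.integral_sub (c1.intervalIntegrable _ _) (c2.intervalIntegrable _ _),
      intervalIntegral.integral_const_mul, intervalIntegral.integral_const]
    simp
  rw [h4, ← hc] at h3
  nlinarith

theorem cont_pair {X : Mat N} {γ : ℝ → G} (h : OPG X γ) {v : G → ℝ} (hv : Sm v) :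
    Continuous fun p : G × ℝ => v (p.1 * γ p.2) := by
  obtain ⟨F, hF, hF'⟩ := hv
  have h1 : (fun p : G × ℝ => v (p.1 * γ p.2)) =
      fun p : G × ℝ => F (mt p.1 * NormedSpace.exp (p.2 • X)) := by
    funext p
    rw [hF', mt_mul, h.exp]
  rw [h1]
  exact hF.continuous.comp ((continuous_mt.comp continuous_fst).mul
    (exp_cont.comp (continuous_snd.smul continuous_const)))

theorem cont_slice {X : Mat N} {γ : ℝ → G} (h : OPG X γ) {v : G → ℝ} (hv : Sm v) (x : G) :
    Continuous fun s : ℝ => v (x * γ s) :=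
  continuous_iff_continuousAt.mpr fun s => (hv.hasDerivAt h x s).continuousAt

theorem pt_est {X : Mat N} {γ : ℝ → G} (h : OPG X γ) {u : G → ℝ} (hu : Sm u) (x : G) :
    (u (x * γ 1) - u x) ^ 2 ≤ ∫ s in (0 : ℝ)..1, (dX γ u (x * γ s)) ^ 2 := by
  have hcx := cont_slice h (hu.dX h) x
  have h2 := intervalIntegral.integral_eq_sub_of_hasDerivAt (a := 0) (b := 1)
    (fun t _ => hu.hasDerivAt h x t) (hcx.intervalIntegrable _ _)
  rw [h.zero, mul_one] at h2
  rw [← h2]
  exact sq_int_le hcx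

/-- `L²` estimate of a translation along a one-parameter group. -/
theorem trans_est {X : Mat N} {γ : ℝ → G} (h : OPG X γ) {u : G → ℝ} (hu : Sm u) :
    ∫ x, (u (x * γ 1) - u x) ^ 2 ∂μ ≤ ∫ x, (dX γ u x) ^ 2 ∂μ := by
  have hvs : Sm (dX γ u) := hu.dX h
  obtain ⟨C, hC⟩ := bdd_of_cont hvs.continuous
  have hcont := cont_pair h hvs
  have hint : Integrable (Function.uncurry fun (x : G) (s : ℝ) => dX γ u (x * γ s) ^ 2)
      (μ.prod (volume.restrict (Set.Ioc (0 : ℝ) 1))) := by
    refine Integrable.of_bound (C := C ^ 2) (hcont.pow 2).aestronglyMeasurable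
      (Eventually.of_forall fun p => ?_)
    rw [Function.uncurry, norm_pow, Real.norm_eq_abs]
    exact pow_le_pow_left₀ (abs_nonneg _) (hC _) 2
  have h1 : ∫ x, (u (x * γ 1) - u x) ^ 2 ∂μ ≤
      ∫ x, (∫ s in Set.Ioc (0 : ℝ) 1, dX γ u (x * γ s) ^ 2) ∂μ := by
    refine integral_mono (integrable_cont μ
      (((hu.trans_right _).continuous.sub hu.continuous).pow 2)) hint.integral_prod_left
      fun x => ?_
    have h2 := pt_est h hu x
    rwa [intervalIntegral.integral_of_le zero_le_one] at h2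
  refine h1.trans_eq ?_
  rw [integral_integral_swap hint]
  have h6 : ∀ s, ∫ x, dX γ u (x * γ s) ^ 2 ∂μ = ∫ x, dX γ u x ^ 2 ∂μ := fun s =>
    int_right μ (u := fun x => dX γ u x ^ 2) (γ s)
  simp only [h6]
  simp

end Integral

end Pool.Agent.R738.HSp
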