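import Pool.Agent.R738.HSp.Basic

set_option autoImplicit false
set_option linter.unusedSectionVars false

/-! # A dimension bound for spaces of functions which are almost invariant under translations -/

namespace Pool.Agent.R738.HSp

open Matrix MeasureTheory Filter Topology
open scoped Matrix.Norms.Frobenius ContDiff
open Pool.Agent.W544.EG Pool.Agent.W973.EGSR

theorem exists_orthonormal {V : Type*} [AddCommGroup V] [Module ℝ V] [FiniteDimensional ℝ V]
    (B : V →ₗ[ℝ] V →ₗ[ℝ] ℝ) (hsymm : ∀ u v, B u v = B v u) (hnonneg : ∀ u, 0 ≤ B u u)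
    (hdef : ∀ u, B u u = 0 → u = 0) :
    ∃ e : Module.Basis (Fin (Module.finrank ℝ V)) ℝ V, ∀ i j, B (e i) (e j) = if i = j then 1 else 0 := by
  let core : InnerProductSpace.Core ℝ V :=
    { inner := fun u v => B u v
      conj_inner_symm := fun u v => hsymm v u
      re_inner_nonneg := fun u => hnonneg u
      add_left := fun u v w => by
        change B (u + v) w = B u w + B v w
        rw [map_add, LinearMap.add_apply]
      smul_left := fun u v r => by
        change B (r • u) v = r * B u v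
        rw [map_smul, LinearMap.smul_apply, smul_eq_mul]
      definite := fun u hu => hdef u hu }
  letI : NormedAddCommGroup V := core.toNormedAddCommGroup
  letI : InnerProductSpace ℝ V := InnerProductSpace.ofCore core.toCore
  let b := stdOrthonormalBasis ℝ V
  refine ⟨b.toBasis, fun i j => ?_⟩
  have h1 := orthonormal_iff_ite.mp b.orthonormal i j
  rw [OrthonormalBasis.coe_toBasis]
  exact h1

variable {N : ℕ} {G : Subgroup (unitaryGroup (Fin N) ℂ)}
variable [MeasurableSpace G] [BorelSpace G] (μ : Measure G) [IsProbabilityMeasure μ]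
  [CompactSpace G] [μ.IsMulRightInvariant] [μ.IsMulLeftInvariant] [μ.IsOpenPosMeasure]

instance secondCountable_mat : SecondCountableTopology (Mat N) := by
  have h : ProperSpace (Mat N) := FiniteDimensional.proper ℝ (Mat N)
  exact secondCountable_of_proper

instance secondCountable_unitary : SecondCountableTopology (unitaryGroup (Fin N) ℂ) :=
  (Topology.IsInducing.subtypeVal).secondCountableTopology

instance secondCountable_group : SecondCountableTopology G :=
  (Topology.IsInducing.subtypeVal).secondCountableTopology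

theorem int_left {u : G → ℝ} (y : G) : ∫ x, u (y * x) ∂μ = ∫ x, u x ∂μ :=
  integral_mul_left_eq_self u y

theorem cauchy_W (W : Set G) {g : G → ℝ} (hg : Continuous g) :
    (∫ y in W, g y ∂μ) ^ 2 ≤ μ.real W * ∫ y in W, g y ^ 2 ∂μ := by
  set w := μ.real W with hw
  have hw0 : 0 ≤ w := measureReal_nonneg
  set c := ∫ y in W, g y ∂μ with hc
  have hint : ∀ f : G → ℝ, Continuous f → Integrable f (μ.restrict W) := fun f hf =>
    (integrable_cont μ hf).restrict
  have h3 : 0 ≤ ∫ y in W, (w * g y - c) ^ 2 ∂μ := integral_nonneg fun y => sq_nonneg _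
  have h4 : ∫ y in W, (w * g y - c) ^ 2 ∂μ =
      w ^ 2 * (∫ y in W, g y ^ 2 ∂μ) - 2 * w * c * (∫ y in W, g y ∂μ) + c ^ 2 * w := by
    have h5 : ∀ s, (w * g s - c) ^ 2 = (w ^ 2 * g s ^ 2 - 2 * w * c * g s) + c ^ 2 := fun s => by ring
    simp only [h5]
    rw [integral_add (hint _ (by fun_prop)) (hint _ (by fun_prop)),
      integral_sub (hint _ (by fun_prop)) (hint _ (by fun_prop)), integral_const_mul,
      integral_const_mul, integral_const, smul_eq_mul]
    have h6 : (μ.restrict W).real Set.univ = w := by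
      rw [measureReal_restrict_apply_univ]
    rw [h6]; ring
  rw [h4, ← hc] at h3
  rcases hw0.eq_or_lt with h7 | h7
  · have h8 : c = 0 := by
      have h9 : μ.restrict W = 0 := by
        rw [Measure.restrict_eq_zero]
        exact (measureReal_eq_zero_iff (measure_ne_top _ _)).mp h7.symm
      rw [hc, h9, integral_zero_measure]
    rw [h8, ← h7]; simp
  · have h10 : 0 ≤ w * (w * (∫ y in W, g y ^ 2 ∂μ) - c ^ 2) := by nlinarith
    have h11 := nonneg_of_mul_nonneg_right h10 h7
    linarith

theorem int_restrict {W : Set G} {f : G → ℝ} (hf : Continuous f) : Integrable f (μ.restrict W) :=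
  (integrable_cont μ hf).restrict

theorem avg_cont {W : Set G} {v : G → ℝ} (hv : Continuous v) :
    Continuous fun x => ∫ y in W, v (x * y) ∂μ := by
  obtain ⟨C, hC⟩ := bdd_of_cont hv
  refine continuous_of_dominated (bound := fun _ => C) (fun x => ?_) (fun x => ?_)
    (integrable_const _) (Eventually.of_forall fun y => ?_)
  · exact (hv.comp (continuous_const.mul continuous_id)).aestronglyMeasurable
  · exact Eventually.of_forall fun y => hC _
  · exact hv.comp (continuous_id.mul continuous_const)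

theorem avg_low {W : Set G} (hW : MeasurableSet W) {v : G → ℝ} (hvc : Continuous v)
    (hv1 : ∫ x, v x ^ 2 ∂μ = 1) (hFW : ∀ y ∈ W, ∫ x, (v (x * y) - v x) ^ 2 ∂μ ≤ 1 / 4) :
    1 / 4 * (μ.real W) ^ 2 ≤ ∫ x, (∫ y in W, v (x * y) ∂μ) ^ 2 ∂μ := by
  set w := μ.real W with hw
  have hw0 : 0 ≤ w := measureReal_nonneg
  obtain ⟨C, hC⟩ := bdd_of_cont hvc
  have hcont : Continuous fun p : G × G => (v (p.1 * p.2) - v p.1) ^ 2 :=
    ((hvc.comp (continuous_fst.mul continuous_snd)).sub (hvc.comp continuous_fst)).pow 2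
  have hI : Integrable (Function.uncurry fun x y : G => (v (x * y) - v x) ^ 2)
      (μ.prod (μ.restrict W)) := by
    refine Integrable.of_bound (C := (2 * C) ^ 2) hcont.aestronglyMeasurable
      (Eventually.of_forall fun p => ?_)
    rw [Function.uncurry, norm_pow, Real.norm_eq_abs]
    refine pow_le_pow_left₀ (abs_nonneg _) ?_ 2
    have h1 := hC (p.1 * p.2)
    have h2 := hC p.1
    calc |v (p.1 * p.2) - v p.1| ≤ |v (p.1 * p.2)| + |v p.1| := abs_sub _ _
      _ ≤ 2 * C := by linarith
  have hpt : ∀ x, 1 / 2 * w ^ 2 * v x ^ 2 - w * ∫ y in W, (v (x * y) - v x) ^ 2 ∂μ ≤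
      (∫ y in W, v (x * y) ∂μ) ^ 2 := by
    intro x
    have hvx : Continuous fun y : G => v (x * y) := hvc.comp (continuous_const.mul continuous_id)
    have h1 : ∫ y in W, (v (x * y) - v x) ∂μ = (∫ y in W, v (x * y) ∂μ) - w * v x := by
      rw [integral_sub (int_restrict μ hvx) (int_restrict μ continuous_const), integral_const,
        smul_eq_mul, measureReal_restrict_apply_univ]
    have h2 := cauchy_W μ W (g := fun y => v (x * y) - v x) (hvx.sub continuous_const)
    rw [h1] at h2
    nlinarith [sq_nonneg (2 * (∫ y in W, v (x * y) ∂μ) - w * v x)]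
  have hI1 : Integrable (fun x => 1 / 2 * w ^ 2 * v x ^ 2) μ :=
    (integrable_cont μ (hvc.pow 2)).const_mul _
  have hI2 : Integrable (fun x => w * ∫ y in W, (v (x * y) - v x) ^ 2 ∂μ) μ :=
    hI.integral_prod_left.const_mul _
  have hI3 : Integrable (fun x => (∫ y in W, v (x * y) ∂μ) ^ 2) μ :=
    integrable_cont μ ((avg_cont μ hvc).pow 2)
  have h7 : ∫ x, (1 / 2 * w ^ 2 * v x ^ 2 - w * ∫ y in W, (v (x * y) - v x) ^ 2 ∂μ) ∂μ ≤
      ∫ x, (∫ y in W, v (x * y) ∂μ) ^ 2 ∂μ := integral_mono (hI1.sub hI2) hI3 hpt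
  refine le_trans ?_ h7
  have h4 : ∫ x, (∫ y in W, (v (x * y) - v x) ^ 2 ∂μ) ∂μ ≤ 1 / 4 * w := by
    rw [integral_integral_swap hI]
    have h5 : ∫ y in W, (∫ x, (v (x * y) - v x) ^ 2 ∂μ) ∂μ ≤ ∫ y in W, (1 / 4 : ℝ) ∂μ :=
      setIntegral_mono_on hI.integral_prod_right (integrable_const _) hW fun y hy => hFW y hy
    rw [integral_const, smul_eq_mul, measureReal_restrict_apply_univ] at h5
    linarith
  have h6 : ∫ x, (1 / 2 * w ^ 2 * v x ^ 2 - w * ∫ y in W, (v (x * y) - v x) ^ 2 ∂μ) ∂μ =
      1 / 2 * w ^ 2 * ∫ x, v x ^ 2 ∂μ -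
        w * ∫ x, (∫ y in W, (v (x * y) - v x) ^ 2 ∂μ) ∂μ := by
    rw [← integral_const_mul, ← integral_const_mul]
    exact integral_sub hI1 hI2
  rw [h6, hv1]
  nlinarith

theorem bessel {ι : Type*} [Fintype ι] [DecidableEq ι] (e : ι → G → ℝ)
    (hec : ∀ i, Continuous (e i))
    (heo : ∀ i j, ∫ x, e i x * e j x ∂μ = if i = j then 1 else 0) {W : Set G}
    (x : G) : ∑ i, (∫ y in W, e i (x * y) ∂μ) ^ 2 ≤ μ.real W := by
  set w := μ.real W with hw
  have hw0 : 0 ≤ w := measureReal_nonneg
  set c : ι → ℝ := fun i => ∫ y in W, e i (x * y) ∂μ with hc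
  have hex : ∀ i, Continuous fun y : G => e i (x * y) := fun i =>
    (hec i).comp (continuous_const.mul continuous_id)
  set g : G → ℝ := fun y => ∑ i, c i * e i (x * y) with hg
  have hgc : Continuous g := continuous_finsetSum _ fun i _ => continuous_const.mul (hex i)
  have h1 : ∫ y, g y ^ 2 ∂μ = ∑ i, c i ^ 2 := by
    have h2 : ∀ y, g y ^ 2 = ∑ i, ∑ j, (c i * c j) * (e i (x * y) * e j (x * y)) := by
      intro y
      rw [sq, hg, Finset.sum_mul_sum]
      exact Finset.sum_congr rfl fun i _ => Finset.sum_congr rfl fun j _ => by ring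
    have hcij : ∀ i j, Continuous fun y : G => (c i * c j) * (e i (x * y) * e j (x * y)) :=
      fun i j => continuous_const.mul ((hex i).mul (hex j))
    simp only [h2]
    rw [integral_finsetSum _ fun i _ => integrable_cont μ (continuous_finsetSum _ fun j _ => hcij i j)]
    refine Finset.sum_congr rfl fun i _ => ?_
    rw [integral_finsetSum _ fun j _ => integrable_cont μ (hcij i j)]
    rw [Finset.sum_eq_single i]
    · rw [integral_const_mul, int_left μ (u := fun z => e i z * e i z), heo, if_pos rfl, mul_one, sq]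
    · intro j _ hj
      rw [integral_const_mul, int_left μ (u := fun z => e i z * e j z), heo, if_neg (Ne.symm hj),
        mul_zero]
    · intro h; exact absurd (Finset.mem_univ _) h
  have h3 : ∫ y in W, g y ∂μ = ∑ i, c i ^ 2 := by
    change ∫ y in W, ∑ i, c i * e i (x * y) ∂μ = _
    have hci : ∀ i, Continuous fun y : G => c i * e i (x * y) := fun i =>
      continuous_const.mul (hex i)
    rw [integral_finsetSum _ fun i _ => int_restrict μ (hci i)]
    refine Finset.sum_congr rfl fun i _ => ?_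
    rw [integral_const_mul, sq]
  have h4 : ∫ y in W, g y ^ 2 ∂μ ≤ ∫ y, g y ^ 2 ∂μ :=
    setIntegral_le_integral (integrable_cont μ (hgc.pow 2))
      (Eventually.of_forall fun y => sq_nonneg _)
  have h5 := cauchy_W μ W hgc
  rw [h3] at h5
  rw [h1] at h4
  set S := ∑ i, c i ^ 2 with hS
  have hS0 : 0 ≤ S := Finset.sum_nonneg fun i _ => sq_nonneg _
  rcases hS0.eq_or_lt with h6 | h6
  · rw [← h6]; exact hw0
  · have h7 : S ^ 2 ≤ w * S := h5.trans (mul_le_mul_of_nonneg_left h4 hw0)
    have h8 : S * (w - S) ≥ 0 := by nlinarith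
    have h9 := nonneg_of_mul_nonneg_right h8 h6
    linarith

theorem dim_bound_aux {ι : Type*} [Fintype ι] [DecidableEq ι] (e : ι → G → ℝ)
    (hec : ∀ i, Continuous (e i))
    (heo : ∀ i j, ∫ x, e i x * e j x ∂μ = if i = j then 1 else 0) {W : Set G}
    (hW : MeasurableSet W) (hW0 : 0 < μ.real W)
    (hFW : ∀ i, ∀ y ∈ W, ∫ x, (e i (x * y) - e i x) ^ 2 ∂μ ≤ 1 / 4) :
    (Fintype.card ι : ℝ) ≤ 4 / μ.real W := by
  have hlow : ∀ i, 1 / 4 * (μ.real W) ^ 2 ≤ ∫ x, (∫ y in W, e i (x * y) ∂μ) ^ 2 ∂μ := fun i =>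
    avg_low μ hW (hec i) (by
      have := heo i i
      rw [if_pos rfl] at this
      simp only [sq]
      exact this) (hFW i)
  have hcc2 : ∀ i, Continuous fun x => (∫ y in W, e i (x * y) ∂μ) ^ 2 := fun i =>
    (avg_cont μ (hec i)).pow 2
  have h10 : ∫ x, ∑ i, (∫ y in W, e i (x * y) ∂μ) ^ 2 ∂μ ≤ μ.real W := by
    calc ∫ x, ∑ i, (∫ y in W, e i (x * y) ∂μ) ^ 2 ∂μ ≤ ∫ _x : G, μ.real W ∂μ :=
          integral_mono (integrable_cont μ (continuous_finsetSum _ fun i _ => hcc2 i))
            (integrable_const _) fun x => bessel μ e hec heo x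
      _ = μ.real W := by simp
  rw [integral_finsetSum _ fun i _ => integrable_cont μ (hcc2 i)] at h10
  have h11 := (Finset.sum_le_sum fun (i : ι) _ => hlow i).trans h10
  rw [Finset.sum_const, Finset.card_univ, nsmul_eq_mul] at h11
  rw [le_div_iff₀ hW0]
  have h12 : μ.real W * ((Fintype.card ι : ℝ) * μ.real W) ≤ μ.real W * 4 := by nlinarith
  exact le_of_mul_le_mul_left h12 hW0

/-- The `L²` inner product on a space of continuous functions. -/
noncomputable def ip (F : Submodule ℝ (G → ℝ)) (hF : ∀ u ∈ F, Continuous u) : F →ₗ[ℝ] F →ₗ[ℝ] ℝ :=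
  LinearMap.mk₂ ℝ (fun u v => ∫ x, (u : G → ℝ) x * (v : G → ℝ) x ∂μ)
    (fun u v w => by
      rw [← int_add μ (cmul (hF _ u.2) (hF _ w.2)) (cmul (hF _ v.2) (hF _ w.2))]
      refine integral_congr_ae (Eventually.of_forall fun x => ?_)
      change ((u : G → ℝ) x + (v : G → ℝ) x) * _ = _
      ring)
    (fun c u v => by
      rw [smul_eq_mul, ← integral_const_mul]
      refine integral_congr_ae (Eventually.of_forall fun x => ?_)
      change (c * (u : G → ℝ) x) * _ = _
      ring)
    (fun u v w => by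
      rw [← int_add μ (cmul (hF _ u.2) (hF _ v.2)) (cmul (hF _ u.2) (hF _ w.2))]
      refine integral_congr_ae (Eventually.of_forall fun x => ?_)
      change _ * ((v : G → ℝ) x + (w : G → ℝ) x) = _
      ring)
    (fun c u v => by
      rw [smul_eq_mul, ← integral_const_mul]
      refine integral_congr_ae (Eventually.of_forall fun x => ?_)
      change _ * (c * (v : G → ℝ) x) = _
      ring)

theorem zero_of_int_sq {u : G → ℝ} (hu : Continuous u) (h : ∫ x, u x * u x ∂μ = 0) : u = 0 := by
  have hc := cmul hu hu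
  rw [integral_eq_zero_iff_of_nonneg (fun x => mul_self_nonneg _) (integrable_cont μ hc)] at h
  have h1 : (fun x => u x * u x) = fun _ => 0 :=
    Continuous.ae_eq_iff_eq μ hc continuous_const |>.mp h
  funext x
  exact mul_self_eq_zero.mp (congrFun h1 x)

theorem dim_bound {W : Set G} (hW : MeasurableSet W) (hW0 : 0 < μ.real W) (F : Submodule ℝ (G → ℝ))
    [FiniteDimensional ℝ F] (hF : ∀ u ∈ F, Continuous u)
    (hFW : ∀ u ∈ F, ∀ y ∈ W, ∫ x, (u (x * y) - u x) ^ 2 ∂μ ≤ 1 / 4 * ∫ x, u x ^ 2 ∂μ) :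
    (Module.finrank ℝ F : ℝ) ≤ 4 / μ.real W := by
  obtain ⟨e, he⟩ := exists_orthonormal (ip μ F hF)
    (fun u v => integral_congr_ae (Eventually.of_forall fun x => mul_comm _ _))
    (fun u => integral_nonneg fun x => mul_self_nonneg _)
    (fun u hu => Subtype.ext (zero_of_int_sq μ (hF _ u.2) hu))
  have h1 := dim_bound_aux μ (fun i => (e i : G → ℝ)) (fun i => hF _ (e i).2) he hW hW0
    (fun i y hy => by
      have h2 := hFW _ (e i).2 y hy
      have h3 : ∫ x, (e i : G → ℝ) x ^ 2 ∂μ = 1 := by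
        have := he i i
        rw [if_pos rfl] at this
        simp only [sq]
        exact this
      rwa [h3, mul_one] at h2)
  rwa [Fintype.card_fin] at h1

end Pool.Agent.R738.HSp
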