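import Pool.Agent.R738.HSp.Dim
import Pool.Agent.Y896.HS.B

set_option autoImplicit false
set_option linter.unusedSectionVars false

/-! # Eigenspaces of the Laplacian of a compact homogeneous space are finite-dimensional -/

namespace Pool.Agent.R738.HSp

open Matrix MeasureTheory Filter Topology
open scoped Matrix.Norms.Frobenius ContDiff
open Pool.Agent.W544.EG Pool.Agent.W973.EGSR
open Pool.Agent.Y896.HS (InvMetric comb crd t_B exists_lie)

variable {N k : ℕ} {G H : Subgroup (unitaryGroup (Fin N) ℂ)}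


theorem lin_bound' {E F : Type} [NormedAddCommGroup E] [NormedSpace ℝ E] [FiniteDimensional ℝ E]
    [NormedAddCommGroup F] [NormedSpace ℝ F] (f : E →ₗ[ℝ] F) :
    ∃ C : ℝ, 0 ≤ C ∧ ∀ x, ‖f x‖ ≤ C * ‖x‖ :=
  ⟨‖LinearMap.toContinuousLinearMap f‖, norm_nonneg _,
    fun x => (LinearMap.toContinuousLinearMap f).le_opNorm x⟩

/-- the one-parameter groups of the metric -/
noncomputable def gam (g : InvMetric G H k) (i : Fin k) : ℝ → G := (exists_opg (g.mem i)).choose

theorem hgam (g : InvMetric G H k) (i : Fin k) : OPG (g.X i) (gam g i) :=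
  (exists_opg (g.mem i)).choose_spec

/-- right `H`-invariance -/
def RI (H : Subgroup (unitaryGroup (Fin N) ℂ)) (u : G → ℝ) : Prop :=
  ∀ x h : G, (h : unitaryGroup (Fin N) ℂ) ∈ H → u (x * h) = u x

/-- the Laplacian -/
noncomputable def lap (g : InvMetric G H k) (u : G → ℝ) : G → ℝ :=
  fun x => -∑ i, dX (gam g i) (dX (gam g i) u) x

theorem iterated_two' {X : Mat N} {γ : ℝ → G} (h : OPG X γ) {u : G → ℝ} {F : Mat N → ℝ}
    (hF : ContDiff ℝ ∞ F) (hF' : ∀ x : G, u x = F (Pool.Agent.W973.EGSR.mt x)) (x : G) :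
    iteratedDeriv 2 (fun t : ℝ => F (Pool.Agent.W973.EGSR.mt x * NormedSpace.exp (t • X))) 0 = dX γ (dX γ u) x := by
  have hu : Sm u := ⟨F, hF, hF'⟩
  have h1 : (fun t : ℝ => F (Pool.Agent.W973.EGSR.mt x * NormedSpace.exp (t • X))) = fun t => u (x * γ t) := by
    funext t
    rw [hF', mt_mul, h.exp]
  rw [h1, iteratedDeriv_succ, iteratedDeriv_one]
  have h2 : deriv (fun t => u (x * γ t)) = fun t => dX γ u (x * γ t) :=
    funext fun t => (hu.hasDerivAt h x t).deriv
  rw [h2]
  rfl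

theorem lap_formula (g : InvMetric G H k) {u : G → ℝ} {F : Mat N → ℝ}
    (hF : ContDiff ℝ ∞ F) (hF' : ∀ x : G, u x = F (Pool.Agent.W973.EGSR.mt x)) (x : G) :
    -∑ i, iteratedDeriv 2 (fun t : ℝ => F (Pool.Agent.W973.EGSR.mt x * NormedSpace.exp (t • g.X i))) 0 = lap g u x := by
  unfold lap
  simp only [iterated_two' (hgam g _) hF hF']

theorem lap_add (g : InvMetric G H k) {u v : G → ℝ} (hu : Sm u) (hv : Sm v) :
    lap g (u + v) = lap g u + lap g v := by
  funext x
  unfold lap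
  rw [Pi.add_apply, ← neg_add, ← Finset.sum_add_distrib]
  congr 1
  refine Finset.sum_congr rfl fun i _ => ?_
  rw [dX_add (hgam g i) hu hv, dX_add (hgam g i) (hu.dX (hgam g i)) (hv.dX (hgam g i)),
    Pi.add_apply]

theorem lap_smul (g : InvMetric G H k) {u : G → ℝ} (hu : Sm u) (c : ℝ) :
    lap g (c • u) = c • lap g u := by
  funext x
  unfold lap
  rw [Pi.smul_apply, smul_neg, Finset.smul_sum]
  congr 1
  refine Finset.sum_congr rfl fun i _ => ?_
  rw [dX_smul (hgam g i) hu, dX_smul (hgam g i) (hu.dX (hgam g i)), Pi.smul_apply]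

/-- the eigenspaces -/
def Eg (g : InvMetric G H k) (lam : ℝ) : Submodule ℝ (G → ℝ) where
  carrier := {u | Sm u ∧ RI H u ∧ lap g u = lam • u}
  add_mem' := by
    rintro u v ⟨hu, hu', hu''⟩ ⟨hv, hv', hv''⟩
    refine ⟨(SmA G).add_mem hu hv, fun x h hh => ?_, ?_⟩
    · rw [Pi.add_apply, Pi.add_apply, hu' x h hh, hv' x h hh]
    · rw [lap_add g hu hv, hu'', hv'', smul_add]
  zero_mem' := by
    refine ⟨(SmA G).zero_mem, fun x h hh => rfl, ?_⟩
    have h1 := lap_smul g (u := 0) (SmA G).zero_mem 0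
    rw [zero_smul, zero_smul] at h1
    rw [smul_zero]
    exact h1
  smul_mem' := by
    rintro c u ⟨hu, hu', hu''⟩
    refine ⟨(SmA G).smul_mem hu c, fun x h hh => ?_, ?_⟩
    · rw [Pi.smul_apply, Pi.smul_apply, hu' x h hh]
    · rw [lap_smul g hu, hu'', smul_comm]

variable [MeasurableSpace G] [BorelSpace G] (μ : Measure G) [IsProbabilityMeasure μ]
  [CompactSpace G] [μ.IsMulRightInvariant] [μ.IsMulLeftInvariant] [μ.IsOpenPosMeasure]

/-- Green's formula -/
theorem green (g : InvMetric G H k) {u v : G → ℝ} (hu : Sm u) (hv : Sm v) :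
    ∫ x, lap g u x * v x ∂μ = ∑ i, ∫ x, dX (gam g i) u x * dX (gam g i) v x ∂μ := by
  have h1 : ∀ x, lap g u x * v x = -∑ i, (dX (gam g i) (dX (gam g i) u) x * v x) := by
    intro x
    unfold lap
    rw [neg_mul, Finset.sum_mul]
  have hcc : ∀ i, Continuous fun x => dX (gam g i) (dX (gam g i) u) x * v x := fun i =>
    cmul ((hu.dX (hgam g i)).dX (hgam g i)).continuous hv.continuous
  simp only [h1]
  rw [integral_neg, integral_finsetSum _ fun i _ => integrable_cont μ (hcc i),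
    ← Finset.sum_neg_distrib]
  refine Finset.sum_congr rfl fun i _ => ?_
  rw [skew μ (hgam g i) (hu.dX (hgam g i)) hv, neg_neg]

theorem lap_symm (g : InvMetric G H k) {u v : G → ℝ} (hu : Sm u) (hv : Sm v) :
    ∫ x, lap g u x * v x ∂μ = ∫ x, u x * lap g v x ∂μ := by
  have h1 : ∫ x, u x * lap g v x ∂μ = ∫ x, lap g v x * u x ∂μ :=
    integral_congr_ae (Eventually.of_forall fun x => mul_comm _ _)
  rw [h1, green μ g hu hv, green μ g hv hu]
  exact Finset.sum_congr rfl fun i _ =>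
    integral_congr_ae (Eventually.of_forall fun x => mul_comm _ _)

/-- orthogonality of eigenfunctions -/
theorem orth (g : InvMetric G H k) {a b : ℝ} (hab : a ≠ b) {u v : G → ℝ} (hu : u ∈ Eg g a)
    (hv : v ∈ Eg g b) : ∫ x, u x * v x ∂μ = 0 := by
  have h1 := lap_symm μ g hu.1 hv.1
  rw [hu.2.2, hv.2.2] at h1
  have h2 : ∫ x, (a • u) x * v x ∂μ = a * ∫ x, u x * v x ∂μ := by
    rw [← integral_const_mul]
    refine integral_congr_ae (Eventually.of_forall fun x => ?_)
    change (a * u x) * v x = _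
    ring
  have h3 : ∫ x, u x * (b • v) x ∂μ = b * ∫ x, u x * v x ∂μ := by
    rw [← integral_const_mul]
    refine integral_congr_ae (Eventually.of_forall fun x => ?_)
    change u x * (b * v x) = _
    ring
  rw [h2, h3] at h1
  have h4 : (a - b) * ∫ x, u x * v x ∂μ = 0 := by linarith
  exact (mul_eq_zero.mp h4).resolve_left (sub_ne_zero.mpr hab)

/-- energy bound -/
theorem energy (g : InvMetric G H k) {Lam : ℝ} {u : G → ℝ}
    (hu : u ∈ ⨆ a : Set.Iic Lam, Eg g a.1) :
    Sm u ∧ RI H u ∧ ∑ i, ∫ x, dX (gam g i) u x ^ 2 ∂μ ≤ Lam * ∫ x, u x ^ 2 ∂μ := by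
  classical
  obtain ⟨f, hf, rfl⟩ := (Submodule.mem_iSup_iff_exists_finsupp _ _).mp hu
  have hsm : ∀ s : Finset (Set.Iic Lam), Sm (∑ i ∈ s, f i) := fun s =>
    (SmA G).sum_mem fun i _ => (hf i).1
  have hlap : ∀ s : Finset (Set.Iic Lam), lap g (∑ i ∈ s, f i) = ∑ i ∈ s, i.1 • f i := by
    intro s
    induction s using Finset.induction_on with
    | empty =>
      rw [Finset.sum_empty, Finset.sum_empty]
      exact ((Eg g 0).zero_mem).2.2.trans (smul_zero _)
    | insert a s ha ih =>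
      rw [Finset.sum_insert ha, Finset.sum_insert ha, lap_add g (hf a).1 (hsm s), ih, (hf a).2.2]
  have hu' : f.sum (fun _ x => x) = ∑ i ∈ f.support, f i := rfl
  rw [hu']
  set s := f.support with hs
  refine ⟨hsm s, fun x h hh => ?_, ?_⟩
  · rw [Finset.sum_apply, Finset.sum_apply]
    exact Finset.sum_congr rfl fun i _ => (hf i).2.1 x h hh
  · have hcij : ∀ i j, Continuous fun x => f i x * f j x := fun i j =>
      cmul (hf i).1.continuous (hf j).1.continuous
    have hgen : ∀ c : Set.Iic Lam → ℝ,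
        ∫ x, (∑ i ∈ s, c i • f i) x * (∑ i ∈ s, f i) x ∂μ = ∑ i ∈ s, c i * ∫ x, f i x ^ 2 ∂μ := by
      intro c
      have h1 : ∀ x, (∑ i ∈ s, c i • f i) x * (∑ i ∈ s, f i) x =
          ∑ i ∈ s, ∑ j ∈ s, c i * (f i x * f j x) := by
        intro x
        rw [Finset.sum_apply, Finset.sum_apply, Finset.sum_mul_sum]
        refine Finset.sum_congr rfl fun i _ => Finset.sum_congr rfl fun j _ => ?_
        rw [Pi.smul_apply, smul_eq_mul]; ring
      have h2 : ∀ i j, Continuous fun x => c i * (f i x * f j x) := fun i j =>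
        continuous_const.mul (hcij i j)
      simp only [h1]
      rw [integral_finsetSum _ fun i _ => integrable_cont μ (continuous_finsetSum _ fun j _ => h2 i j)]
      refine Finset.sum_congr rfl fun i hi => ?_
      rw [integral_finsetSum _ fun j _ => integrable_cont μ (h2 i j), Finset.sum_eq_single i]
      · rw [integral_const_mul]
        simp only [sq]
      · intro j _ hj
        rw [integral_const_mul, orth μ g (fun h => hj (Subtype.ext h).symm) (hf i) (hf j), mul_zero]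
      · intro h; exact absurd hi h
    have hE : ∑ i, ∫ x, dX (gam g i) (∑ i ∈ s, f i) x ^ 2 ∂μ =
        ∑ i ∈ s, i.1 * ∫ x, f i x ^ 2 ∂μ := by
      have h3 := green μ g (hsm s) (hsm s)
      rw [hlap s, hgen] at h3
      rw [h3]
      refine Finset.sum_congr rfl fun i _ => ?_
      simp only [sq]
    have hN : ∫ x, (∑ i ∈ s, f i) x ^ 2 ∂μ = ∑ i ∈ s, ∫ x, f i x ^ 2 ∂μ := by
      have h4 := hgen (fun _ => 1)
      simp only [one_smul, one_mul] at h4
      simp only [sq] at h4 ⊢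
      exact h4
    rw [hE, hN, Finset.mul_sum]
    refine Finset.sum_le_sum fun i _ => mul_le_mul_of_nonneg_right i.2 ?_
    exact integral_nonneg fun x => sq_nonneg _

theorem cs_fin (a b : Fin k → ℝ) : (∑ i, a i * b i) ^ 2 ≤ (∑ i, a i ^ 2) * ∑ i, b i ^ 2 :=
  Finset.sum_mul_sq_le_sq_mul_sq _ _ _

/-- derivative in a general direction -/
theorem dir_est (hH : IsClosed (H : Set (unitaryGroup (Fin N) ℂ))) (hHG : H ≤ G)
    (g : InvMetric G H k) {X : Mat N} (hX : X ∈ LieAlg G) {γ : ℝ → G} (h : OPG X γ) {u : G → ℝ}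
    (hu : Sm u) (huH : RI H u) (x : G) :
    dX γ u x ^ 2 ≤ ‖crd g X‖ ^ 2 * ∑ i, dX (gam g i) u x ^ 2 := by
  obtain ⟨F, hF, hF'⟩ := hu
  obtain ⟨b1, b2, b3, b4⟩ := t_B N k G H hH g
  have hZ := b3 X hX
  set Z := X - comb g (crd g X) with hZdef
  have hZG : Z ∈ LieAlg G := fun t => by
    obtain ⟨u, hu, hue⟩ := hZ t
    exact ⟨u, hHG hu, hue⟩
  obtain ⟨γZ, hγZ⟩ := exists_opg hZG
  have hZ0 : dX γZ u x = 0 := by
    have h1 : (fun t => u (x * γZ t)) = fun _ => u x := by
      funext t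
      refine huH x (γZ t) ?_
      obtain ⟨w, hw, hwe⟩ := hZ t
      have h2 : Pool.Agent.W973.EGSR.mt (γZ t) = (w : Mat N) := by rw [hγZ.exp, hwe]
      have h3 : ((γZ t : G) : unitaryGroup (Fin N) ℂ) = w := Subtype.ext h2
      rw [h3]; exact hw
    unfold dX
    rw [h1, deriv_const]
  rw [dX_formula hγZ hF hF'] at hZ0
  have hsum : dX γ u x = ∑ i, (crd g X) i * dX (gam g i) u x := by
    rw [dX_formula h hF hF']
    have h4 : X = comb g (crd g X) + Z := by rw [hZdef]; abel
    have h5 : Pool.Agent.W973.EGSR.mt x * X = (∑ i, (crd g X) i • (Pool.Agent.W973.EGSR.mt x * g.X i)) + Pool.Agent.W973.EGSR.mt x * Z := by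
      conv_lhs => rw [h4]
      rw [mul_add]
      congr 1
      change Pool.Agent.W973.EGSR.mt x * (∑ i, (crd g X) i • g.X i) = _
      rw [Finset.mul_sum]
      exact Finset.sum_congr rfl fun i _ => mul_smul_comm _ _ _
    rw [h5, map_add, hZ0, add_zero, map_sum]
    refine Finset.sum_congr rfl fun i _ => ?_
    rw [map_smul, smul_eq_mul, dX_formula (hgam g i) hF hF']
  rw [hsum, EuclideanSpace.norm_sq_eq]
  simp only [Real.norm_eq_abs, sq_abs]
  exact cs_fin _ _

/-- small translations move functions little -/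
theorem near (hc : IsClosed (G : Set (unitaryGroup (Fin N) ℂ)))
    (hH : IsClosed (H : Set (unitaryGroup (Fin N) ℂ))) (hHG : H ≤ G)
    (g : InvMetric G H k) {ε : ℝ} (hε : 0 < ε) :
    ∃ W : Set G, IsOpen W ∧ (1 : G) ∈ W ∧ ∀ u : G → ℝ, Sm u → RI H u → ∀ y ∈ W,
      ∫ x, (u (x * y) - u x) ^ 2 ∂μ ≤ ε * ∑ i, ∫ x, dX (gam g i) u x ^ 2 ∂μ := by
  obtain ⟨L, hL⟩ := exists_lie hc
  have hG := isG hc hL
  obtain ⟨T, hT0, hT1⟩ := lin_bound' (crd g)
  set δ : ℝ := Real.sqrt ε / (T + 1) with hδ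
  have hδ0 : 0 < δ := by positivity
  obtain ⟨η, hη, hnear⟩ := near_one hG hδ0
  refine ⟨{y | ‖Pool.Agent.W973.EGSR.mt y - 1‖ < η}, ?_, ?_, ?_⟩
  · exact isOpen_lt ((continuous_mt.sub continuous_const).norm) continuous_const
  · change ‖Pool.Agent.W973.EGSR.mt (1 : G) - 1‖ < η
    rw [mt_one, sub_self, norm_zero]; exact hη
  · intro u hu huH y hy
    obtain ⟨X, hXL, hXn, hXe⟩ := hnear (Pool.Agent.W973.EGSR.mt y) ⟨y, y.2, rfl⟩ hy
    have hX : X ∈ LieAlg G := by rw [← hL]; exact hXL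
    obtain ⟨γ, hγ⟩ := exists_opg hX
    have hγ1 : γ 1 = y := mt_injective (by rw [hγ.exp, one_smul]; exact hXe)
    have h1 := trans_est μ hγ hu
    rw [hγ1] at h1
    refine h1.trans ?_
    have h2 : ∫ x, dX γ u x ^ 2 ∂μ ≤ ∫ x, ‖crd g X‖ ^ 2 * ∑ i, dX (gam g i) u x ^ 2 ∂μ := by
      refine integral_mono (integrable_cont μ ((hu.dX hγ).continuous.pow 2)) (integrable_cont μ ?_)
        fun x => dir_est hH hHG g hX hγ hu huH x
      exact continuous_const.mul (continuous_finsetSum _ fun i _ =>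
        (hu.dX (hgam g i)).continuous.pow 2)
    have hcc : ∀ i, Continuous fun x => dX (gam g i) u x ^ 2 := fun i =>
      (hu.dX (hgam g i)).continuous.pow 2
    rw [integral_const_mul, integral_finsetSum _ fun i _ => integrable_cont μ (hcc i)] at h2
    refine h2.trans (mul_le_mul_of_nonneg_right ?_ ?_)
    · have h3 : ‖crd g X‖ ≤ Real.sqrt ε := by
        calc ‖crd g X‖ ≤ T * ‖X‖ := hT1 X
          _ ≤ T * δ := by gcongr
          _ ≤ (T + 1) * δ := by nlinarith
          _ = Real.sqrt ε := by rw [hδ]; field_simp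
      calc ‖crd g X‖ ^ 2 ≤ Real.sqrt ε ^ 2 := pow_le_pow_left₀ (norm_nonneg _) h3 2
        _ = ε := Real.sq_sqrt hε.le
    · exact Finset.sum_nonneg fun i _ => integral_nonneg fun x => sq_nonneg _

include μ in
theorem finite_dim_aux (hc : IsClosed (G : Set (unitaryGroup (Fin N) ℂ)))
    (hH : IsClosed (H : Set (unitaryGroup (Fin N) ℂ))) (hHG : H ≤ G)
    (g : InvMetric G H k) (Lam : ℝ) :
    FiniteDimensional ℝ ↥(⨆ a : Set.Iic Lam, Eg g a.1) := by
  set E := ⨆ a : Set.Iic Lam, Eg g a.1 with hE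
  set ε : ℝ := 1 / (4 * (|Lam| + 1)) with hε
  have hε0 : 0 < ε := by positivity
  obtain ⟨W, hW, hW1, hWe⟩ := near μ hc hH hHG g hε0
  have hWpos : 0 < μ.real W := by
    rw [measureReal_def, ENNReal.toReal_pos_iff]
    exact ⟨hW.measure_pos μ ⟨1, hW1⟩, measure_lt_top _ _⟩
  -- every finite-dimensional subspace has bounded dimension
  have key : ∀ F : Submodule ℝ (G → ℝ), F ≤ E → FiniteDimensional ℝ F →
      (Module.finrank ℝ F : ℝ) ≤ 4 / μ.real W := by
    intro F hF hfin
    refine dim_bound μ hW.measurableSet hWpos F (fun u hu => (energy μ g (hF hu)).1.continuous) ?_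
    intro u hu y hy
    obtain ⟨h1, h2, h3⟩ := energy μ g (hF hu)
    refine (hWe u h1 h2 y hy).trans ?_
    have h4 : 0 ≤ ∫ x, u x ^ 2 ∂μ := integral_nonneg fun x => sq_nonneg _
    calc ε * ∑ i, ∫ x, dX (gam g i) u x ^ 2 ∂μ ≤ ε * (Lam * ∫ x, u x ^ 2 ∂μ) := by gcongr
      _ ≤ ε * ((|Lam| + 1) * ∫ x, u x ^ 2 ∂μ) := by
          gcongr
          linarith [le_abs_self Lam]
      _ = 1 / 4 * ∫ x, u x ^ 2 ∂μ := by
          rw [hε]
          field_simp
  by_contra hcon
  have h5 : Cardinal.aleph0 ≤ Module.rank ℝ E := by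
    by_contra h6
    rw [not_le] at h6
    exact hcon (Module.rank_lt_aleph0_iff.mp h6)
  obtain ⟨n, hn⟩ := exists_nat_gt (4 / μ.real W)
  have h6 : (n : Cardinal) ≤ Module.rank ℝ E := (Cardinal.natCast_le_aleph0).trans h5
  obtain ⟨s, hs, hli⟩ := le_rank_iff_exists_linearIndependent_finset.mp h6
  have h7 := key ((Submodule.span ℝ (s : Set E)).map E.subtype) (Submodule.map_subtype_le _ _) ?_
  · rw [Submodule.finrank_map_subtype_eq, finrank_span_set_eq_card hli] at h7
    rw [Finset.toFinset_coe, hs] at h7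
    linarith
  · have : FiniteDimensional ℝ (Submodule.span ℝ (s : Set E)) :=
      FiniteDimensional.span_of_finite ℝ s.finite_toSet
    infer_instance

/-- **The eigenspaces for the eigenvalues `≤ Λ` span a finite-dimensional space.** -/
theorem finite_dim {N k : ℕ} {G H : Subgroup (unitaryGroup (Fin N) ℂ)}
    (hc : IsClosed (G : Set (unitaryGroup (Fin N) ℂ)))
    (hH : IsClosed (H : Set (unitaryGroup (Fin N) ℂ))) (hHG : H ≤ G)
    (g : InvMetric G H k) (Lam : ℝ) :
    FiniteDimensional ℝ ↥(⨆ a : Set.Iic Lam, Eg g a.1) := by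
  have hG : CompactSpace G := compact_group hc
  let m : MeasurableSpace G := borel G
  have : BorelSpace G := ⟨rfl⟩
  let μ : Measure G := Measure.haarMeasure ⊤
  have h1 : IsProbabilityMeasure μ := by
    constructor
    have := Measure.haarMeasure_self (K₀ := (⊤ : TopologicalSpace.PositiveCompacts G))
    simpa [μ] using this
  have h3 : μ.IsMulRightInvariant := by
    constructor
    intro g
    have h1 : (Measure.map (· * g) μ).IsHaarMeasure := by infer_instance
    have h2 : IsProbabilityMeasure (Measure.map (· * g) μ) :=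
      Measure.isProbabilityMeasure_map (measurable_mul_const g).aemeasurable
    exact Measure.isHaarMeasure_eq_of_isProbabilityMeasure _ _
  exact finite_dim_aux μ hc hH hHG g Lam

end Pool.Agent.R738.HSp
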