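import Pool.Agent.R738.HSp.Poly
import Pool.Agent.R738.FG.Main

set_option autoImplicit false
set_option linter.unusedSectionVars false

/-! # Laplacian subalgebras are finitely generated -/

namespace Pool.Agent.R738.HSp

open Matrix MeasureTheory Filter Topology
open scoped Matrix.Norms.Frobenius ContDiff
open Pool.Agent.W544.EG Pool.Agent.W973.EGSR
open Pool.Agent.Y896.HS (InvMetric comb crd t_B exists_lie)

variable {N k : ℕ} {G H : Subgroup (unitaryGroup (Fin N) ℂ)}

section Int

variable [MeasurableSpace G] [BorelSpace G] (μ : Measure G) [IsProbabilityMeasure μ]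
  [CompactSpace G] [μ.IsMulRightInvariant] [μ.IsMulLeftInvariant] [μ.IsOpenPosMeasure]

/-- the eigenvalues seen by a nice space form a finite set -/
theorem finite_eig {E : Submodule ℝ (G → ℝ)} (hE : Nice E) (g : InvMetric G H k) :
    {lam : ℝ | ∃ r ∈ E, r ∈ Eg g lam ∧ r ≠ 0}.Finite := by
  have hfin : FiniteDimensional ℝ E := Module.Finite.iff_fg.2 hE.fin
  let T : Module.End ℝ E :=
    { toFun := fun u => ⟨lap g u, lap_mem hE g u.2⟩
      map_add' := fun u v => Subtype.ext (lap_add g (hE.smooth _ u.2) (hE.smooth _ v.2))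
      map_smul' := fun c u => Subtype.ext (lap_smul g (hE.smooth _ u.2) c) }
  refine (Module.End.finite_hasEigenvalue T).subset ?_
  rintro lam ⟨r, hrE, hrg, hr0⟩
  refine Module.End.hasEigenvalue_of_hasEigenvector (x := (⟨r, hrE⟩ : E)) ⟨?_, ?_⟩
  · rw [Module.End.mem_eigenspace_iff]
    exact Subtype.ext hrg.2.2
  · exact fun h => hr0 (congrArg Subtype.val h)

theorem exists_retr (hc : IsClosed (G : Set (unitaryGroup (Fin N) ℂ)))
    (hH : IsClosed (H : Set (unitaryGroup (Fin N) ℂ))) (hHG : H ≤ G)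
    (g : InvMetric G H k) (A : Subalgebra ℝ (G → ℝ))
    (hA : Subalgebra.toSubmodule A ≤ ⨆ lam : ℝ, Eg g lam ⊓ Subalgebra.toSubmodule A)
    {p : G → ℝ} (hp : p ∈ PP G) : ∃ q ∈ A, ∀ a ∈ A, ∫ x, q x * a x ∂μ = ∫ x, p x * a x ∂μ := by
  obtain ⟨E, hE, hpE, -⟩ := PP_nice hp
  obtain ⟨Lam, hLam⟩ := (finite_eig hE g).bddAbove
  set Q : Submodule ℝ (G → ℝ) := ⨆ a : Set.Iic Lam, Eg g a.1 ⊓ Subalgebra.toSubmodule A with hQ
  have hQE : Q ≤ ⨆ a : Set.Iic Lam, Eg g a.1 := iSup_mono fun a => inf_le_left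
  have hQA : Q ≤ Subalgebra.toSubmodule A := iSup_le fun a => inf_le_right
  have hfin0 := finite_dim hc hH hHG g Lam
  have hfin : FiniteDimensional ℝ Q := Submodule.finiteDimensional_of_le hQE
  have hQc : ∀ u ∈ Q, Continuous u := fun u hu => (energy μ g (hQE hu)).1.continuous
  obtain ⟨q, hqQ, hq⟩ := exists_proj μ Q hQc hfin (PP_cont hp)
  refine ⟨q, hQA hqQ, fun a ha => ?_⟩
  have ha' : a ∈ ⨆ lam : ℝ, Eg g lam ⊓ Subalgebra.toSubmodule A := hA ha
  have hqc : Continuous q := hQc q hqQ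
  have hpc : Continuous p := PP_cont hp
  suffices h : Continuous a ∧ ∫ x, q x * a x ∂μ = ∫ x, p x * a x ∂μ from h.2
  clear ha
  refine Submodule.iSup_induction (p := fun lam : ℝ => Eg g lam ⊓ Subalgebra.toSubmodule A)
    (motive := fun a => Continuous a ∧ ∫ x, q x * a x ∂μ = ∫ x, p x * a x ∂μ) ha' ?_ ?_ ?_
  · intro lam a ha
    refine ⟨ha.1.1.continuous, ?_⟩
    by_cases hl : lam ≤ Lam
    · exact hq a ((le_iSup (fun a : Set.Iic Lam => Eg g a.1 ⊓ Subalgebra.toSubmodule A)
        ⟨lam, hl⟩) ha)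
    · -- both sides vanish
      obtain ⟨r, hrE, hrg, hr⟩ := proj_eig μ hE g ha.1
      have hr0 : r = 0 := by
        by_contra hne
        exact hl (hLam ⟨r, hrE, hrg, hne⟩)
      have h1 : ∫ x, p x * a x ∂μ = 0 := by
        have h2 := hr p hpE
        rw [hr0] at h2
        have h3 : ∫ x, p x * a x ∂μ = ∫ x, a x * p x ∂μ :=
          integral_congr_ae (Eventually.of_forall fun x => mul_comm _ _)
        rw [h3, ← h2]
        simp
      rw [h1]
      -- orthogonality
      have h4 : ∀ v ∈ ⨆ a : Set.Iic Lam, Eg g a.1, Continuous v ∧ ∫ x, v x * a x ∂μ = 0 := by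
        intro v hv
        refine Submodule.iSup_induction (p := fun a : Set.Iic Lam => Eg g a.1)
          (motive := fun v => Continuous v ∧ ∫ x, v x * a x ∂μ = 0) hv ?_ ?_ ?_
        · intro b v hv
          exact ⟨hv.1.continuous, orth μ g (fun h : b.1 = lam => hl (h ▸ b.2)) hv ha.1⟩
        · exact ⟨continuous_zero, by simp⟩
        · intro u v hu hv
          refine ⟨hu.1.add hv.1, ?_⟩
          have h5 : ∀ x, (u + v) x * a x = u x * a x + v x * a x := fun x => by
            rw [Pi.add_apply]; ring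
          simp only [h5]
          rw [int_add μ (cmul hu.1 ha.1.1.continuous) (cmul hv.1 ha.1.1.continuous), hu.2, hv.2,
            add_zero]
      exact (h4 q (hQE hqQ)).2
  · exact ⟨continuous_zero, by simp⟩
  · intro u v hu hv
    refine ⟨hu.1.add hv.1, ?_⟩
    have h5 : ∀ w : G → ℝ, ∀ x, w x * (u + v) x = w x * u x + w x * v x := fun w x => by
      rw [Pi.add_apply]; ring
    simp only [h5]
    rw [int_add μ (cmul hqc hu.1) (cmul hqc hv.1), int_add μ (cmul hpc hu.1) (cmul hpc hv.1),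
      hu.2, hv.2]

include μ in
theorem fg_aux (hc : IsClosed (G : Set (unitaryGroup (Fin N) ℂ)))
    (hH : IsClosed (H : Set (unitaryGroup (Fin N) ℂ))) (hHG : H ≤ G)
    (g : InvMetric G H k) (A : Subalgebra ℝ (G → ℝ))
    (hA : Subalgebra.toSubmodule A ≤ ⨆ lam : ℝ, Eg g lam ⊓ Subalgebra.toSubmodule A) : A.FG := by
  classical
  have hAP : A ≤ PP G := by
    intro a ha
    have h1 : (⨆ lam : ℝ, Eg g lam ⊓ Subalgebra.toSubmodule A) ≤ Subalgebra.toSubmodule (PP G) :=
      iSup_le fun lam u hu => Eg_le_aux μ hc hH hHG g lam hu.1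
    exact h1 (hA ha)
  have hAc : ∀ a ∈ A, Continuous a := fun a ha => PP_cont (hAP ha)
  choose! r hrA hr using fun (p : G → ℝ) (hp : p ∈ PP G) => exists_retr μ hc hH hHG g A hA hp
  -- uniqueness
  have huniq : ∀ q ∈ A, ∀ q' ∈ A, (∀ a ∈ A, ∫ x, q x * a x ∂μ = ∫ x, q' x * a x ∂μ) → q = q' := by
    intro q hq q' hq' h
    rw [← sub_eq_zero]
    have hqq := A.sub_mem hq hq'
    apply zero_of_int_sq μ (hAc _ hqq)
    have h1 : ∀ x, (q - q') x * (q - q') x = q x * (q - q') x - q' x * (q - q') x := fun x => by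
      rw [Pi.sub_apply]; ring
    simp only [h1]
    rw [int_sub μ (cmul (hAc _ hq) (hAc _ hqq)) (cmul (hAc _ hq') (hAc _ hqq)), h _ hqq, sub_self]
  letI : Algebra A (PP G) := (Subalgebra.inclusion hAP).toRingHom.toAlgebra
  have hst : IsScalarTower ℝ A (PP G) := IsScalarTower.of_algebraMap_eq fun r => rfl
  have hsm : ∀ (a : A) (p : PP G), ((a • p : PP G) : G → ℝ) = (a : G → ℝ) * (p : G → ℝ) :=
    fun a p => rfl
  let π : PP G →ₗ[A] A :=
    { toFun := fun p => ⟨r p, hrA p p.2⟩
      map_add' := by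
        intro p p'
        apply Subtype.ext
        refine huniq _ (hrA _ (p + p').2) _ (A.add_mem (hrA _ p.2) (hrA _ p'.2)) fun a ha => ?_
        have h5 : ∀ (u v : G → ℝ), ∀ x, (u + v) x * a x = u x * a x + v x * a x := fun u v x => by
          rw [Pi.add_apply]; ring
        rw [hr _ (p + p').2 a ha]
        change ∫ x, ((p : G → ℝ) + (p' : G → ℝ)) x * a x ∂μ = ∫ x, (r p + r p') x * a x ∂μ
        simp only [h5]
        rw [int_add μ (cmul (PP_cont p.2) (hAc a ha)) (cmul (PP_cont p'.2) (hAc a ha)),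
          int_add μ (cmul (hAc _ (hrA _ p.2)) (hAc a ha)) (cmul (hAc _ (hrA _ p'.2)) (hAc a ha)),
          hr _ p.2 a ha, hr _ p'.2 a ha]
      map_smul' := by
        intro b p
        apply Subtype.ext
        refine huniq _ (hrA _ (b • p).2) _ (A.mul_mem b.2 (hrA _ p.2)) fun a ha => ?_
        rw [hr _ (b • p).2 a ha, hsm]
        have h6 : ∀ (u : G → ℝ) (x), ((b : G → ℝ) * u) x * a x = u x * ((b : G → ℝ) * a) x :=
          fun u x => by rw [Pi.mul_apply, Pi.mul_apply]; ring
        change _ = ∫ x, ((b : G → ℝ) * r p) x * a x ∂μ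
        simp only [h6]
        exact (hr _ p.2 _ (A.mul_mem b.2 ha)).symm }
  have hπ : π 1 = 1 := by
    apply Subtype.ext
    exact huniq _ (hrA _ (1 : PP G).2) _ A.one_mem fun a ha => hr _ (1 : PP G).2 a ha
  have hPfin : Algebra.FiniteType ℝ (PP G) := (PP G).fg_iff_finiteType.mp PP_fg
  have h7 := Pool.Agent.R738.FG.finiteType_of_retract (k := ℝ) π hπ
  exact A.fg_iff_finiteType.mpr h7

end Int

/-- **Laplacian subalgebras are finitely generated** (functions on `G`). -/
theorem fg {N k : ℕ} {G H : Subgroup (unitaryGroup (Fin N) ℂ)}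
    (hc : IsClosed (G : Set (unitaryGroup (Fin N) ℂ)))
    (hH : IsClosed (H : Set (unitaryGroup (Fin N) ℂ))) (hHG : H ≤ G)
    (g : InvMetric G H k) (A : Subalgebra ℝ (G → ℝ))
    (hA : Subalgebra.toSubmodule A ≤ ⨆ lam : ℝ, Eg g lam ⊓ Subalgebra.toSubmodule A) : A.FG := by
  have hG : CompactSpace G := compact_group hc
  let m : MeasurableSpace G := borel G
  have : BorelSpace G := ⟨rfl⟩
  let μ : Measure G := Measure.haarMeasure ⊤
  have h1 : IsProbabilityMeasure μ := by
    constructor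
    have := Measure.haarMeasure_self (K₀ := (⊤ : TopologicalSpace.PositiveCompacts G))
    simpa [μ] using this
  have h3 : μ.IsMulRightInvariant := by
    constructor
    intro g
    have h1 : (Measure.map (· * g) μ).IsHaarMeasure := by infer_instance
    have h2 : IsProbabilityMeasure (Measure.map (· * g) μ) :=
      Measure.isProbabilityMeasure_map (measurable_mul_const g).aemeasurable
    exact Measure.isHaarMeasure_eq_of_isProbabilityMeasure _ _
  exact fg_aux μ hc hH hHG g A hA

end Pool.Agent.R738.HSp
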