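import Pool.Agent.R738.HSp.Energy

set_option autoImplicit false
set_option linter.unusedSectionVars false

/-! # Eigenfunctions of the Laplacian are polynomials in the matrix entries -/

namespace Pool.Agent.R738.HSp

open Matrix MeasureTheory Filter Topology
open scoped Matrix.Norms.Frobenius ContDiff
open Pool.Agent.W544.EG Pool.Agent.W973.EGSR
open Pool.Agent.Y896.HS (InvMetric comb crd t_B exists_lie)

variable {N k : ℕ} {G H : Subgroup (unitaryGroup (Fin N) ℂ)}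


/-- polynomials in the real and imaginary parts of the matrix entries -/
noncomputable def PP (G : Subgroup (unitaryGroup (Fin N) ℂ)) : Subalgebra ℝ (G → ℝ) :=
  Algebra.adjoin ℝ (Set.range (resLin (G := G)))

theorem PP_fg : (PP G).FG := by
  classical
  let b := Module.finBasis ℝ (Mat N →ₗ[ℝ] ℝ)
  refine ⟨Finset.univ.image fun i => resLin (G := G) (b i), ?_⟩
  apply le_antisymm
  · apply Algebra.adjoin_mono
    intro x hx
    rw [Finset.mem_coe, Finset.mem_image] at hx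
    obtain ⟨i, _, rfl⟩ := hx
    exact ⟨_, rfl⟩
  · apply Algebra.adjoin_le
    rintro _ ⟨l, rfl⟩
    rw [← b.sum_repr l, map_sum]
    refine Subalgebra.sum_mem _ fun i _ => ?_
    rw [map_smul]
    refine Subalgebra.smul_mem _ (Algebra.subset_adjoin ?_) _
    rw [Finset.mem_coe]
    exact Finset.mem_image_of_mem _ (Finset.mem_univ i)

theorem PP_nice {p : G → ℝ} (hp : p ∈ PP G) :
    ∃ E : Submodule ℝ (G → ℝ), Nice E ∧ p ∈ E ∧ E ≤ Subalgebra.toSubmodule (PP G) := by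
  induction hp using Algebra.adjoin_induction with
  | mem x hx =>
    refine ⟨_, nice_lin, hx, ?_⟩
    rintro _ ⟨l, rfl⟩
    exact Algebra.subset_adjoin ⟨l, rfl⟩
  | algebraMap r =>
    refine ⟨_, nice_one, Submodule.mem_span_singleton.mpr ⟨r, ?_⟩, ?_⟩
    · rw [Algebra.algebraMap_eq_smul_one]
    · rw [Submodule.span_le, Set.singleton_subset_iff]
      exact (PP G).one_mem
  | add x y _ _ hx hy =>
    obtain ⟨E, hE, hxE, hEP⟩ := hx
    obtain ⟨E', hE', hyE', hEP'⟩ := hy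
    exact ⟨E ⊔ E', hE.sup hE', Submodule.add_mem_sup hxE hyE', sup_le hEP hEP'⟩
  | mul x y _ _ hx hy =>
    obtain ⟨E, hE, hxE, hEP⟩ := hx
    obtain ⟨E', hE', hyE', hEP'⟩ := hy
    refine ⟨E * E', hE.mul hE', Submodule.mul_mem_mul hxE hyE', ?_⟩
    rw [Submodule.mul_le]
    intro a ha b hb
    exact (PP G).mul_mem (hEP ha) (hEP' hb)

/-- the continuous functions which are polynomials -/
noncomputable def polyAlg (G : Subgroup (unitaryGroup (Fin N) ℂ)) : Subalgebra ℝ C(G, ℝ) where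
  carrier := {h | (h : G → ℝ) ∈ PP G}
  mul_mem' ha hb := (PP G).mul_mem ha hb
  add_mem' ha hb := (PP G).add_mem ha hb
  algebraMap_mem' r := (PP G).algebraMap_mem r

theorem PP_cont {p : G → ℝ} (hp : p ∈ PP G) : Continuous p := by
  obtain ⟨E, hE, hpE, _⟩ := PP_nice hp
  exact hE.continuous hpE

theorem polyAlg_sep : (polyAlg G).SeparatesPoints := by
  intro x y hxy
  have h1 : Pool.Agent.W973.EGSR.mt x ≠ Pool.Agent.W973.EGSR.mt y := fun h => hxy (mt_injective h)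
  obtain ⟨l, hl⟩ : ∃ l : Mat N →ₗ[ℝ] ℝ, l (Pool.Agent.W973.EGSR.mt x) ≠ l (Pool.Agent.W973.EGSR.mt y) := by
    by_contra hcon
    push Not at hcon
    apply h1
    rw [← sub_eq_zero]
    exact (Module.forall_dual_apply_eq_zero_iff ℝ _).mp fun φ => by
      rw [map_sub, hcon, sub_self]
  refine ⟨resLin (G := G) l, ⟨⟨resLin (G := G) l, PP_cont (Algebra.subset_adjoin ⟨l, rfl⟩)⟩,
    Algebra.subset_adjoin ⟨l, rfl⟩, rfl⟩, hl⟩

theorem mem_polyAlg {h : C(G, ℝ)} : h ∈ polyAlg G ↔ (h : G → ℝ) ∈ PP G := Iff.rfl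

theorem near_poly' [CompactSpace G] (f₀ : C(G, ℝ)) {η : ℝ} (hη : 0 < η) :
    ∃ q ∈ PP G, ∀ x, |q x - f₀ x| ≤ η := by
  obtain ⟨h, hh⟩ :=
    ContinuousMap.exists_mem_subalgebra_near_continuousMap_of_separatesPoints (polyAlg G)
      polyAlg_sep f₀ η hη
  refine ⟨_, mem_polyAlg.mp h.2, fun x => ?_⟩
  have h1 := (ContinuousMap.norm_coe_le_norm ((h : C(G, ℝ)) - f₀) x).trans hh.le
  rw [ContinuousMap.sub_apply, Real.norm_eq_abs] at h1
  exact h1

theorem near_poly [CompactSpace G] {f : G → ℝ} (hf : Continuous f) {η : ℝ} (hη : 0 < η) :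
    ∃ q ∈ PP G, ∀ x, |q x - f x| ≤ η := near_poly' ⟨f, hf⟩ hη

section Int

variable [MeasurableSpace G] [BorelSpace G] (μ : Measure G) [IsProbabilityMeasure μ]
  [CompactSpace G] [μ.IsMulRightInvariant] [μ.IsMulLeftInvariant] [μ.IsOpenPosMeasure]

theorem eq_zero_of_orth {f : G → ℝ} (hf : Continuous f)
    (h : ∀ p ∈ PP G, ∫ x, f x * p x ∂μ = 0) : f = 0 := by
  apply zero_of_int_sq μ hf
  have h0 : 0 ≤ ∫ x, f x * f x ∂μ := integral_nonneg fun x => mul_self_nonneg _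
  obtain ⟨C, hC⟩ := bdd_of_cont hf
  have hC0 : 0 ≤ C := (abs_nonneg _).trans (hC 1)
  refine le_antisymm ?_ h0
  refine le_of_forall_pos_le_add fun ε hε => ?_
  rw [zero_add]
  obtain ⟨q, hq, hqf⟩ := near_poly hf (η := ε / (C + 1)) (by positivity)
  have hqc : Continuous q := PP_cont hq
  have h2 : ∫ x, f x * f x ∂μ = ∫ x, (f x * f x - f x * q x) ∂μ := by
    rw [int_sub μ (cmul hf hf) (cmul hf hqc), h _ hq, sub_zero]
  have h4 : ∀ x, f x * f x - f x * q x ≤ ε := by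
    intro x
    have h3 : f x * f x - f x * q x = f x * (f x - q x) := by ring
    rw [h3]
    calc f x * (f x - q x) ≤ |f x * (f x - q x)| := le_abs_self _
      _ = |f x| * |q x - f x| := by rw [abs_mul, abs_sub_comm (f x)]
      _ ≤ C * (ε / (C + 1)) := mul_le_mul (hC x) (hqf x) (abs_nonneg _) hC0
      _ ≤ (C + 1) * (ε / (C + 1)) := by gcongr; linarith
      _ = ε := by field_simp
  rw [h2]
  have h5 : ∫ x, (f x * f x - f x * q x) ∂μ ≤ ∫ _x : G, ε ∂μ :=
    integral_mono (integrable_cont μ ((cmul hf hf).sub (cmul hf hqc))) (integrable_const _) h4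
  have h6 : ∫ _x : G, ε ∂μ = ε := by simp
  exact h5.trans h6.le

theorem form_eq {E : Submodule ℝ (G → ℝ)} (hE : Nice E) {r r' : G → ℝ} (hr : r ∈ E) (hr' : r' ∈ E)
    (h : ∀ v ∈ E, ∫ x, r x * v x ∂μ = ∫ x, r' x * v x ∂μ) : r = r' := by
  rw [← sub_eq_zero]
  have hrr := E.sub_mem hr hr'
  apply zero_of_int_sq μ (hE.continuous hrr)
  have h1 : ∀ x, (r - r') x * (r - r') x = r x * (r - r') x - r' x * (r - r') x := fun x => by
    rw [Pi.sub_apply]; ring
  simp only [h1]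
  rw [int_sub μ (cmul (hE.continuous hr) (hE.continuous hrr))
    (cmul (hE.continuous hr') (hE.continuous hrr)), h _ hrr, sub_self]

theorem Nice.sm {E : Submodule ℝ (G → ℝ)} (hE : Nice E) {u : G → ℝ} (hu : u ∈ E) : Sm u :=
  hE.smooth u hu

theorem lap_mem {E : Submodule ℝ (G → ℝ)} (hE : Nice E) (g : InvMetric G H k) {u : G → ℝ}
    (hu : u ∈ E) : lap g u ∈ E := by
  have h1 : lap g u = -∑ i, dX (gam g i) (dX (gam g i) u) := by
    funext x
    rw [Pi.neg_apply, Finset.sum_apply]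
    rfl
  rw [h1]
  exact E.neg_mem (E.sum_mem fun i _ => dX_mem hE (hgam g i) (dX_mem hE (hgam g i) hu))

/-- projection of an eigenfunction to a nice space -/
theorem proj_eig {E : Submodule ℝ (G → ℝ)} (hE : Nice E) (g : InvMetric G H k) {lam : ℝ}
    {f : G → ℝ} (hf : f ∈ Eg g lam) :
    ∃ r ∈ E, r ∈ Eg g lam ∧ ∀ v ∈ E, ∫ x, r x * v x ∂μ = ∫ x, f x * v x ∂μ := by
  have hfin : FiniteDimensional ℝ E := Module.Finite.iff_fg.2 hE.fin
  obtain ⟨r, hr⟩ := exists_repr (form μ hE) (form_def μ hE) (intL μ hE hf.1.continuous)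
  have hr' : ∀ v ∈ E, ∫ x, (r : G → ℝ) x * v x ∂μ = ∫ x, f x * v x ∂μ := fun v hv => hr ⟨v, hv⟩
  refine ⟨r, r.2, ⟨hE.smooth _ r.2, fun x h hh => ?_, ?_⟩, hr'⟩
  · have h1 : (fun x => (r : G → ℝ) (x * h)) = (r : G → ℝ) := by
      refine form_eq μ hE (hE.inv _ r.2 h) r.2 fun v hv => ?_
      have h2 : ∫ x, (r : G → ℝ) (x * h) * v x ∂μ = ∫ x, (r : G → ℝ) x * v (x * h⁻¹) ∂μ := by
        rw [← int_right μ (u := fun x => (r : G → ℝ) x * v (x * h⁻¹)) h]
        refine integral_congr_ae (Eventually.of_forall fun x => ?_)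
        change _ = (r : G → ℝ) (x * h) * v (x * h * h⁻¹)
        rw [mul_inv_cancel_right]
      have h3 : ∫ x, f x * v x ∂μ = ∫ x, f x * v (x * h⁻¹) ∂μ := by
        rw [← int_right μ (u := fun x => f x * v (x * h⁻¹)) h]
        refine integral_congr_ae (Eventually.of_forall fun x => ?_)
        change _ = f (x * h) * v (x * h * h⁻¹)
        rw [mul_inv_cancel_right, hf.2.1 x h hh]
      rw [h2, hr' v hv, h3]
      exact hr' _ (hE.inv v hv h⁻¹)
    exact congrFun h1 x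
  · refine form_eq μ hE (lap_mem hE g r.2) (E.smul_mem _ r.2) fun v hv => ?_
    rw [lap_symm μ g (hE.smooth _ r.2) (hE.smooth _ hv), hr' _ (lap_mem hE g hv),
      ← lap_symm μ g hf.1 (hE.smooth _ hv), hf.2.2]
    have h4 : ∀ u : G → ℝ, ∫ x, (lam • u) x * v x ∂μ = lam * ∫ x, u x * v x ∂μ := by
      intro u
      rw [← integral_const_mul]
      refine integral_congr_ae (Eventually.of_forall fun x => ?_)
      change (lam * u x) * v x = _
      ring
    rw [h4, h4, hr' v hv]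

theorem Eg_fin (hc : IsClosed (G : Set (unitaryGroup (Fin N) ℂ)))
    (hH : IsClosed (H : Set (unitaryGroup (Fin N) ℂ))) (hHG : H ≤ G)
    (g : InvMetric G H k) (lam : ℝ) : FiniteDimensional ℝ (Eg g lam) := by
  have h1 := finite_dim hc hH hHG g lam
  have h2 : Eg g lam ≤ ⨆ a : Set.Iic lam, Eg g a.1 :=
    le_iSup (fun a : Set.Iic lam => Eg g a.1) ⟨lam, le_refl lam⟩
  exact Submodule.finiteDimensional_of_le h2

/-- pairing with a continuous function -/
noncomputable def fnl (Q : Submodule ℝ (G → ℝ)) (hQc : ∀ u ∈ Q, Continuous u) {f : G → ℝ}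
    (hf : Continuous f) : Q →ₗ[ℝ] ℝ where
  toFun v := ∫ x, f x * (v : G → ℝ) x ∂μ
  map_add' u v := by
    rw [← int_add μ (cmul hf (hQc _ u.2)) (cmul hf (hQc _ v.2))]
    refine integral_congr_ae (Eventually.of_forall fun x => ?_)
    change f x * ((u : G → ℝ) x + (v : G → ℝ) x) = _
    ring
  map_smul' c v := by
    rw [RingHom.id_apply, smul_eq_mul, ← integral_const_mul]
    refine integral_congr_ae (Eventually.of_forall fun x => ?_)
    change f x * (c * (v : G → ℝ) x) = _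
    ring

theorem exists_proj (Q : Submodule ℝ (G → ℝ)) (hQc : ∀ u ∈ Q, Continuous u)
    (hQ : FiniteDimensional ℝ Q) {f : G → ℝ} (hf : Continuous f) :
    ∃ q ∈ Q, ∀ v ∈ Q, ∫ x, q x * v x ∂μ = ∫ x, f x * v x ∂μ := by
  obtain ⟨q, hq⟩ := exists_repr (ip μ Q hQc)
    (fun u hu => Subtype.ext (zero_of_int_sq μ (hQc _ u.2) hu)) (fnl μ Q hQc hf)
  exact ⟨q, q.2, fun v hv => hq ⟨v, hv⟩⟩

include μ in
/-- **Eigenfunctions are polynomials.** -/
theorem Eg_le_aux (hc : IsClosed (G : Set (unitaryGroup (Fin N) ℂ)))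
    (hH : IsClosed (H : Set (unitaryGroup (Fin N) ℂ))) (hHG : H ≤ G)
    (g : InvMetric G H k) (lam : ℝ) {f : G → ℝ} (hf : f ∈ Eg g lam) : f ∈ PP G := by
  have h1 := Eg_fin hc hH hHG g lam
  set Q : Submodule ℝ (G → ℝ) := Eg g lam ⊓ Subalgebra.toSubmodule (PP G) with hQ
  have hQfin : FiniteDimensional ℝ Q := Submodule.finiteDimensional_of_le (inf_le_left)
  have hQc : ∀ u ∈ Q, Continuous u := fun u hu => hu.1.1.continuous
  obtain ⟨q, hqQ, hq'⟩ := exists_proj μ Q hQc hQfin hf.1.continuous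
  -- the difference
  set f₁ : G → ℝ := f - q with hf₁
  have hf₁E : f₁ ∈ Eg g lam := (Eg g lam).sub_mem hf hqQ.1
  have hf₁Q : ∀ v ∈ Q, ∫ x, f₁ x * v x ∂μ = 0 := by
    intro v hv
    have h2 : ∀ x, f₁ x * v x = f x * v x - q x * v x := fun x => by
      rw [hf₁, Pi.sub_apply]; ring
    simp only [h2]
    rw [int_sub μ (cmul hf.1.continuous (hQc _ hv)) (cmul (hQc _ hqQ) (hQc _ hv)), hq' v hv,
      sub_self]
  have hzero : f₁ = 0 := by
    apply eq_zero_of_orth μ hf₁E.1.continuous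
    intro p hp
    obtain ⟨E, hE, hpE, hEP⟩ := PP_nice hp
    obtain ⟨r, hrE, hrg, hr⟩ := proj_eig μ hE g hf₁E
    have h3 : ∫ x, f₁ x * r x ∂μ = 0 := hf₁Q r ⟨hrg, hEP hrE⟩
    have h4 : ∫ x, r x * r x ∂μ = 0 := by rw [hr r hrE, h3]
    have h5 := zero_of_int_sq μ hrg.1.continuous h4
    rw [← hr p hpE, h5]
    simp
  have h6 : f = q := by rw [← sub_eq_zero]; exact hzero
  rw [h6]
  exact hqQ.2

end Int

end Pool.Agent.R738.HSp
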